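import Pool.Agent.H764R3.TopFractal

/-!
# Peano continua with a locally Euclidean point, or with a real function of bounded variation
# along a path, are topological IFS-attractors
-/

open Set Topology Pool.Agent.H764R3.TopFractal

namespace Pool.Agent.Results.MP_e1c365_gt.EuclideanPointOrBoundedVariation

/-- (1) If `r : X → [0,1]^d` is a continuous surjection and finitely many continuous maps
`q i : [0,1]^d → X` cover `X` with all `r ∘ q i` Lipschitz, then `X` is a topological
IFS-attractor.
(2) If `X` is the image of a path `q` and some nonconstant continuous `r : X → ℝ` has bounded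
variation along `q`, then `X` is a topological IFS-attractor.
(3) If `X` is a Hausdorff image of `[0,1]` (a Peano continuum) and some open subset of `X` is
homeomorphic to `ℝ^d`, `d ≥ 1`, then `X` is a topological IFS-attractor. -/
theorem result :
    (∀ (X : Type) [TopologicalSpace X] (d n : ℕ) (r : X → Fin d → unitInterval)
      (q : Fin n → (Fin d → unitInterval) → X), Continuous r → Function.Surjective r →
      (∀ i, Continuous (q i)) → (⋃ i, range (q i)) = univ →
      (∀ i, ∃ K : NNReal, LipschitzWith K (r ∘ q i)) → IsTopologicalIFSAttractor X) ∧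
    (∀ (X : Type) [TopologicalSpace X] (q : unitInterval → X) (r : X → ℝ), Continuous q →
      Function.Surjective q → Continuous r → (∃ x y, r x ≠ r y) →
      BoundedVariationOn (r ∘ q) univ → IsTopologicalIFSAttractor X) ∧
    (∀ (X : Type) [TopologicalSpace X] [T2Space X] (q : unitInterval → X), Continuous q →
      Function.Surjective q → ∀ (d : ℕ) (U : Set X), 1 ≤ d → IsOpen U →
      Nonempty (U ≃ₜ (Fin d → ℝ)) → IsTopologicalIFSAttractor X) := by
  refine ⟨?_, ?_, ?_⟩
  · intro X _ d n r q hr hrs hq hcov hL
    choose K hK using hL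
    obtain ⟨K', hK'⟩ := (Set.finite_range K).bddAbove
    refine criterion r hr hrs q hq ?_ K' fun i => (hK i).weaken (hK' ⟨i, rfl⟩)
    intro x
    have : x ∈ ⋃ i, range (q i) := by rw [hcov]; trivial
    obtain ⟨i, c, h⟩ := mem_iUnion.1 this
    exact ⟨i, c, h⟩
  · intro X _ q r hq hqs hr hne hBV
    exact bounded_variation q hq hqs r hr hne hBV
  · rintro X _ _ q hq hqs d U hd hU ⟨h⟩
    have hj : IsOpenEmbedding (Subtype.val ∘ h.symm : (Fin d → ℝ) → X) :=
      hU.isOpenEmbedding_subtypeVal.comp h.symm.isOpenEmbedding
    exact locally_euclidean q hq hqs hd _ hj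

end Pool.Agent.Results.MP_e1c365_gt.EuclideanPointOrBoundedVariation
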