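import Pool.Agent.H764R3.TopFractalProd

/-!
# Peano continua that are somewhere a finite product of spaces with many local cut points
-/

open Set Topology Pool.Agent.H764R3.TopFractal Pool.Agent.H764R3.TopFractalCut
  Pool.Agent.H764R3.TopFractalDendrite Pool.Agent.H764R3.TopFractalProd

namespace Pool.Agent.Results.MP_e1c365_gt.LocalProductOfCutSpaces

/-- Let `X` be a Peano continuum (a metrizable continuous image of `[0,1]`).
(1) Suppose that some open subset `U` of `X` is homeomorphic to a product `O 0 × ... × O (k-1)`,
`k ≥ 1`, where each `O i` is an open subset of a Peano continuum `Z i` and contains uncountably many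
local cut points of `Z i`. Then `X` is a topological IFS-attractor.
(2) If `X` has more than one point and any two distinct points of `X` are separated by a third
point (that is, `X` is a nondegenerate dendrite), then `X` is a topological IFS-attractor. -/
theorem result :
    (∀ (X : Type) [TopologicalSpace X] [TopologicalSpace.MetrizableSpace X]
      (q : unitInterval → X), Continuous q → Function.Surjective q →
      ∀ (k : ℕ), 1 ≤ k → ∀ (Z : Fin k → Type) [∀ i, TopologicalSpace (Z i)]
      [∀ i, TopologicalSpace.MetrizableSpace (Z i)] (p : ∀ i, unitInterval → Z i),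
      (∀ i, Continuous (p i)) → (∀ i, Function.Surjective (p i)) →
      ∀ (O : ∀ i, Set (Z i)), (∀ i, IsOpen (O i)) →
      (∀ i, ¬ {x : Z i | x ∈ O i ∧ IsLocalCutPoint x}.Countable) →
      ∀ (U : Set X), IsOpen U → Nonempty (U ≃ₜ (∀ i, O i)) → IsTopologicalIFSAttractor X) ∧
    (∀ (X : Type) [TopologicalSpace X] [TopologicalSpace.MetrizableSpace X] [Nontrivial X]
      (q : unitInterval → X), Continuous q → Function.Surjective q →
      SeparatedByThirdPoint X → IsTopologicalIFSAttractor X) := by
  refine ⟨?_, fun _ _ _ _ q hq hs h => attractor_of_dendrite q hq hs h⟩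
  intro X _ _ q hq hs k hk Z _ _ p hp hps O hO hcut U hU h
  obtain ⟨e⟩ := h
  exact product_of_cut q hq hs hk Z p hp hps O hO hcut (Subtype.val ∘ e.symm)
    (hU.isOpenEmbedding_subtypeVal.comp e.symm.isOpenEmbedding)

end Pool.Agent.Results.MP_e1c365_gt.LocalProductOfCutSpaces
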